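import Pool.Agent.U397.PG.Block

set_option autoImplicit false
set_option linter.unusedSectionVars false
set_option linter.unusedVariables false
set_option maxHeartbeats 1000000

/-! The log-isoperimetric inequality for modules over a ring `R` with a non-unit `π` such that every
element of `R` is a unit or a multiple of `π`. -/

namespace Pool.Agent.U397.PG

open Finset
open scoped Classical

noncomputable section

variable {R V : Type} [CommRing R] [AddCommGroup V] [Module R V] [Fintype V]

lemma sz_eq (U : Submodule R V) : sz U = Nat.card U.toAddSubgroup := by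
  unfold sz
  rw [Nat.card_eq_fintype_card, ← Fintype.card_subtype]
  rfl

lemma card_mul_relIndex {W : Type} [AddCommGroup W] {H K : AddSubgroup W} (h : H ≤ K) :
    Nat.card H * H.relIndex K = Nat.card K := by
  have := AddSubgroup.relIndex_mul_relIndex (⊥ : AddSubgroup W) H K bot_le h
  rwa [AddSubgroup.relIndex_bot_left, AddSubgroup.relIndex_bot_left] at this

/-- the class of `s`: the elements which generate the same cyclic submodule -/
def cls (R : Type) {V : Type} [CommRing R] [AddCommGroup V] [Module R V] [Fintype V] (s : V) :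
    Finset V :=
  univ.filter fun y => Submodule.span R {y} = Submodule.span R {s}

lemma mem_cls {s y : V} : y ∈ cls R s ↔ Submodule.span R {y} = Submodule.span R {s} := by
  simp [cls]

lemma self_mem_cls (s : V) : s ∈ cls R s := mem_cls.2 rfl

lemma cls_card_pos (s : V) : (0 : ℝ) < (cls R s).card := by
  exact_mod_cast Finset.card_pos.2 ⟨s, self_mem_cls s⟩

/-- the average of the number of leaving points over the class of `s`, divided by `|A|` -/
def wbar (R : Type) {V : Type} [CommRing R] [AddCommGroup V] [Module R V] [Fintype V]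
    (A : Finset V) (s : V) : ℝ :=
  (∑ y ∈ cls R s, (outCount A y : ℝ)) / ((cls R s).card * A.card)

lemma outCount_le (A : Finset V) (s : V) : outCount A s ≤ A.card :=
  Finset.card_filter_le _ _

lemma wbar_nonneg (A : Finset V) (s : V) : 0 ≤ wbar R A s :=
  div_nonneg (Finset.sum_nonneg fun _ _ => Nat.cast_nonneg _)
    (mul_nonneg (Nat.cast_nonneg _) (Nat.cast_nonneg _))

lemma wbar_le_one (A : Finset V) (hA : A.Nonempty) (s : V) : wbar R A s ≤ 1 := by
  have hA0 : (0 : ℝ) < A.card := by exact_mod_cast hA.card_pos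
  have hc := cls_card_pos (R := R) s
  unfold wbar
  rw [div_le_one (by positivity)]
  calc ∑ y ∈ cls R s, (outCount A y : ℝ) ≤ ∑ y ∈ cls R s, (A.card : ℝ) :=
        Finset.sum_le_sum fun y _ => by exact_mod_cast outCount_le A y
    _ = _ := by rw [Finset.sum_const, nsmul_eq_mul]

/-- averaging over the classes -/
lemma sum_wbar (μ : V → ℝ)
    (hinv : ∀ s y : V, Submodule.span R {y} = Submodule.span R {s} → μ y = μ s) (A : Finset V) :
    ∑ s, μ s * wbar R A s = (∑ s, μ s * outCount A s) / A.card := by
  have h1 : ∀ s, μ s * wbar R A s = (∑ y, if Submodule.span R {y} = Submodule.span R {s} then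
      μ y * (outCount A y : ℝ) / (cls R y).card else 0) / A.card := by
    intro s
    unfold wbar
    rw [← Finset.sum_filter]
    have : ∀ y ∈ univ.filter (fun y => Submodule.span R {y} = Submodule.span R {s}),
        μ y * (outCount A y : ℝ) / (cls R y).card = (outCount A y : ℝ) * (μ s / (cls R s).card) := by
      intro y hy
      have hy' := (Finset.mem_filter.1 hy).2
      have e1 : cls R y = cls R s := by
        unfold cls; rw [hy']
      rw [hinv s y hy', e1]; ring
    rw [Finset.sum_congr rfl this, ← Finset.sum_mul]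
    change _ = (∑ y ∈ cls R s, (outCount A y : ℝ)) * (μ s / (cls R s).card) / A.card
    ring
  simp_rw [h1]
  rw [← Finset.sum_div, Finset.sum_comm]
  congr 1
  refine Finset.sum_congr rfl fun y _ => ?_
  have h2 : ∀ s, (if Submodule.span R {y} = Submodule.span R {s} then
      μ y * (outCount A y : ℝ) / (cls R y).card else 0) = if s ∈ cls R y then
      μ y * (outCount A y : ℝ) / (cls R y).card else 0 := by
    intro s
    have hiff : Submodule.span R {y} = Submodule.span R {s} ↔ s ∈ cls R y := by
      rw [mem_cls]; exact eq_comm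
    by_cases h : s ∈ cls R y
    · rw [if_pos (hiff.2 h), if_pos h]
    · rw [if_neg (fun h' => h (hiff.1 h')), if_neg h]
  simp_rw [h2]
  rw [← Finset.sum_filter, Finset.sum_const, nsmul_eq_mul, Finset.filter_mem_eq_inter,
    Finset.univ_inter]
  have := cls_card_pos (R := R) y
  field_simp

lemma sum_out (A : Finset V) (U : Submodule R V) :
    ∑ y ∈ univ.filter (fun y => y ∈ U), (outCount A y : ℝ) = ∑ x ∈ A, ((sz U : ℝ) - cnt A U x) := by
  have h1 : ∀ y, (outCount A y : ℝ) = ∑ x ∈ A, if x + y ∉ A then (1 : ℝ) else 0 := by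
    intro y
    unfold outCount
    rw [Finset.card_filter]
    push_cast
    rfl
  simp_rw [h1]
  rw [Finset.sum_comm]
  refine Finset.sum_congr rfl fun x hx => ?_
  have h2 : ∀ y, (if x + y ∉ A then (1 : ℝ) else 0) = 1 - if x + y ∈ A then (1 : ℝ) else 0 := by
    intro y; by_cases h : x + y ∈ A <;> simp [h]
  simp_rw [h2]
  rw [Finset.sum_sub_distrib, Finset.sum_const, nsmul_eq_mul, mul_one]
  unfold sz
  congr 1
  rw [cast_cnt, Finset.sum_filter]
  have e1 : ∀ z : V, (if z ∈ A then (if z - x ∈ U then (1 : ℝ) else 0) else 0)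
      = if z - x ∈ U then (if z ∈ A then (1 : ℝ) else 0) else 0 := by
    intro z; by_cases h1 : z ∈ A <;> by_cases h2 : z - x ∈ U <;> simp [h1, h2]
  have e2 : ∑ z ∈ A, (if z - x ∈ U then (1 : ℝ) else 0)
      = ∑ z : V, if z ∈ A then (if z - x ∈ U then (1 : ℝ) else 0) else 0 := by
    rw [Finset.sum_ite_mem, Finset.univ_inter]
  rw [e2]
  simp_rw [e1]
  refine Fintype.sum_equiv (Equiv.addLeft x) _ _ fun y => ?_
  by_cases h1 : y ∈ U <;> by_cases h2 : x + y ∈ A <;> simp [h1, h2]

section chain

variable (π : R) (hπ : ¬ IsUnit π) (hR : ∀ r : R, IsUnit r ∨ π ∣ r)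

include hπ hR in
lemma nak {s : V} (hs : s ≠ 0) : s ∉ Submodule.span R {π • s} := by
  intro h
  obtain ⟨r, hr⟩ := Submodule.mem_span_singleton.1 h
  have h1 : (1 - r * π) • s = 0 := by
    rw [sub_smul, one_smul, mul_smul, hr, sub_self]
  rcases hR (1 - r * π) with h2 | h2
  · exact hs ((h2.smul_eq_zero).1 h1)
  · apply hπ
    have : π ∣ 1 := by
      have h3 : π ∣ (1 - r * π) + r * π := dvd_add h2 (dvd_mul_left _ _)
      simpa using h3
    exact isUnit_of_dvd_one this

lemma span_pi_le (s : V) : Submodule.span R {π • s} ≤ Submodule.span R {s} := by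
  rw [Submodule.span_singleton_le_iff_mem]
  exact Submodule.smul_mem _ _ (Submodule.mem_span_singleton_self s)

include hπ hR in
lemma mem_cls_iff {s : V} (hs : s ≠ 0) (y : V) :
    y ∈ cls R s ↔ y ∈ Submodule.span R {s} ∧ y ∉ Submodule.span R {π • s} := by
  rw [mem_cls]
  constructor
  · intro h
    refine ⟨h ▸ Submodule.mem_span_singleton_self y, fun h' => ?_⟩
    apply nak π hπ hR hs
    have h1 : Submodule.span R {y} ≤ Submodule.span R {π • s} := by
      rw [Submodule.span_singleton_le_iff_mem]; exact h'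
    rw [h] at h1
    exact h1 (Submodule.mem_span_singleton_self s)
  · rintro ⟨h1, h2⟩
    obtain ⟨r, rfl⟩ := Submodule.mem_span_singleton.1 h1
    rcases hR r with hr | ⟨r', rfl⟩
    · exact Submodule.span_singleton_smul_eq hr s
    · exfalso
      apply h2
      rw [mul_comm, mul_smul]
      exact Submodule.smul_mem _ _ (Submodule.mem_span_singleton_self _)

include hπ hR in
/-- the index of `π C` in the cyclic module `C` is the same for all `C ≠ 0` -/
lemma relIndex_cyc {s : V} (hs : s ≠ 0) :
    (Submodule.span R {π • s}).toAddSubgroup.relIndex (Submodule.span R {s}).toAddSubgroup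
      = (Ideal.span {π}).toAddSubgroup.index := by
  let f : R →+ V := (LinearMap.toSpanSingleton R V s).toAddMonoidHom
  have hf : ∀ r, f r = r • s := fun r => rfl
  have h1 : (Submodule.span R {s}).toAddSubgroup = (⊤ : AddSubgroup R).map f := by
    ext y
    simp only [Submodule.mem_toAddSubgroup, Submodule.mem_span_singleton, AddSubgroup.mem_map,
      AddSubgroup.mem_top, true_and]
    rfl
  have h2 : (Submodule.span R {π • s}).toAddSubgroup = ((Ideal.span {π}).toAddSubgroup).map f := by
    ext y
    simp only [Submodule.mem_toAddSubgroup, Submodule.mem_span_singleton, AddSubgroup.mem_map]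
    constructor
    · rintro ⟨r, rfl⟩
      refine ⟨r * π, ⟨r, rfl⟩, ?_⟩
      rw [hf, mul_smul]
    · rintro ⟨x, hx, rfl⟩
      obtain ⟨r, rfl⟩ := hx
      exact ⟨r, by rw [hf, smul_eq_mul, mul_smul]⟩
  have h3 : f.ker ≤ (Ideal.span {π}).toAddSubgroup := by
    intro r hr
    rw [AddMonoidHom.mem_ker, hf] at hr
    rcases hR r with h | h
    · exact absurd ((h.smul_eq_zero).1 hr) hs
    · exact Ideal.mem_span_singleton.2 h
  rw [h1, h2, AddSubgroup.relIndex_map_map, top_sup_eq, sup_eq_left.2 h3,
    AddSubgroup.relIndex_top_right]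

include hπ hR in
lemma sz_cyc {s : V} (hs : s ≠ 0) :
    sz (Submodule.span R {s}) = (Ideal.span {π}).toAddSubgroup.index * sz (Submodule.span R {π • s}) := by
  have h := card_mul_relIndex (H := (Submodule.span R {π • s}).toAddSubgroup)
    (K := (Submodule.span R {s}).toAddSubgroup) (span_pi_le π s)
  rw [relIndex_cyc π hπ hR hs] at h
  rw [sz_eq, sz_eq, ← h, mul_comm]

include hπ hR in
lemma two_le_q {s : V} (hs : s ≠ 0) : 2 ≤ (Ideal.span {π}).toAddSubgroup.index := by
  have h := sz_cyc π hπ hR hs
  have h1 : sz (Submodule.span R {π • s}) < sz (Submodule.span R {s}) := by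
    unfold sz
    refine Finset.card_lt_card ⟨?_, fun h' => ?_⟩
    · intro z hz
      rw [Finset.mem_filter] at hz ⊢
      exact ⟨hz.1, span_pi_le π s hz.2⟩
    · have : s ∈ univ.filter (fun z => z ∈ Submodule.span R {s}) :=
        Finset.mem_filter.2 ⟨Finset.mem_univ _, Submodule.mem_span_singleton_self s⟩
      exact nak π hπ hR hs (Finset.mem_filter.1 (h' this)).2
  rw [h] at h1
  by_contra hcon
  push Not at hcon
  have : (Ideal.span {π}).toAddSubgroup.index * sz (Submodule.span R {π • s})
      ≤ 1 * sz (Submodule.span R {π • s}) := Nat.mul_le_mul_right _ (by omega)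
  omega

include hR in
lemma inf_le_pi {U : Submodule R V} {s : V} (hs : s ∉ U) :
    U ⊓ Submodule.span R {s} ≤ Submodule.span R {π • s} := by
  rintro y ⟨h1, h2⟩
  obtain ⟨r, rfl⟩ := Submodule.mem_span_singleton.1 h2
  rcases hR r with hr | ⟨r', rfl⟩
  · exfalso
    apply hs
    obtain ⟨u, rfl⟩ := hr
    have : (↑u⁻¹ : R) • ((u : R) • s) ∈ U := U.smul_mem _ h1
    rwa [smul_smul, Units.inv_mul, one_smul] at this
  · rw [mul_comm, mul_smul]
    exact Submodule.smul_mem _ _ (Submodule.mem_span_singleton_self _)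

/-- `|U + C| |U ∩ C| = |U| |C|` -/
lemma sz_sup_mul_inf (U C : Submodule R V) : sz (U ⊔ C) * sz (U ⊓ C) = sz U * sz C := by
  have h1 := card_mul_relIndex (H := C.toAddSubgroup) (K := U.toAddSubgroup ⊔ C.toAddSubgroup)
    le_sup_right
  have h2 := card_mul_relIndex (H := U.toAddSubgroup ⊓ C.toAddSubgroup) (K := U.toAddSubgroup)
    inf_le_left
  rw [AddSubgroup.relIndex_sup_right] at h1
  rw [AddSubgroup.inf_relIndex_left] at h2
  have e1 : sz (U ⊔ C) = Nat.card (U.toAddSubgroup ⊔ C.toAddSubgroup : AddSubgroup V) := by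
    rw [sz_eq, Submodule.sup_toAddSubgroup]
  have e2 : sz (U ⊓ C) = Nat.card (U.toAddSubgroup ⊓ C.toAddSubgroup : AddSubgroup V) := by
    have e0 : (U ⊓ C).toAddSubgroup = U.toAddSubgroup ⊓ C.toAddSubgroup := by
      ext x; simp [Submodule.mem_inf, AddSubgroup.mem_inf]
    rw [sz_eq, e0]
  rw [e1, e2, sz_eq, sz_eq, ← h1, ← h2]
  ring

/-- the cut by the submodules, compared with the entropy -/
def L (A : Finset V) (U : Submodule R V) : ℝ :=
  (Real.log (Fintype.card V) - Real.log (sz U)) - (Real.log A.card - G A U / A.card)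

/-- logarithm of the index -/
def cod (U : Submodule R V) : ℝ := Real.log (Fintype.card V) - Real.log (sz U)

include hπ hR in
lemma L_step (A : Finset V) (hA : A.Nonempty) (U : Submodule R V) (s : V) (hs : s ∉ U) :
    L A U - L A (U ⊔ Submodule.span R {s}) ≤
      wbar R A s * (cod U - cod (U ⊔ Submodule.span R {s})) := by
  have hs0 : s ≠ 0 := by rintro rfl; exact hs U.zero_mem
  set C := Submodule.span R {s} with hC
  set C' := Submodule.span R {π • s} with hC'
  set D := U ⊓ C with hD
  set q := (Ideal.span {π}).toAddSubgroup.index with hq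
  have hA0 : (0 : ℝ) < A.card := by exact_mod_cast hA.card_pos
  have h1 : sz C = q * sz C' := sz_cyc π hπ hR hs0
  have hq2 : 2 ≤ q := two_le_q π hπ hR hs0
  have hDC : D ≤ C' := inf_le_pi π hR hs
  have hCC : C' ≤ C := span_pi_le π s
  set N' := D.toAddSubgroup.relIndex C'.toAddSubgroup with hN'
  have h2 : sz C' = N' * sz D := by
    have := card_mul_relIndex (H := D.toAddSubgroup) (K := C'.toAddSubgroup) hDC
    rw [sz_eq, sz_eq, ← this, mul_comm]
  have hN1 : 1 ≤ N' := by
    rw [Nat.one_le_iff_ne_zero]
    intro h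
    rw [h, zero_mul] at h2
    have := sz_pos C'
    omega
  have hb := block A hDC hCC q N' hq2 hN1 h1 h2
  have hsub := submod A C U
  have hszD : (0 : ℝ) < sz D := by exact_mod_cast sz_pos D
  have hszC : (0 : ℝ) < sz C := by exact_mod_cast sz_pos C
  have hszC' : (0 : ℝ) < sz C' := by exact_mod_cast sz_pos C'
  have hszU : (0 : ℝ) < sz U := by exact_mod_cast sz_pos U
  have hszUC : (0 : ℝ) < sz (U ⊔ C) := by exact_mod_cast sz_pos (U ⊔ C)
  have hq0 : (0 : ℝ) < q := by positivity
  have hN0 : (0 : ℝ) < N' := by exact_mod_cast hN1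
  have h1' : (sz C : ℝ) = q * sz C' := by rw [h1]; push_cast; ring
  have h2' : (sz C' : ℝ) = N' * sz D := by rw [h2]; push_cast; ring
  have h3 : (sz (U ⊔ C) : ℝ) * sz D = sz U * sz C := by exact_mod_cast sz_sup_mul_inf U C
  -- the logarithm of the index
  have hΛ : cod U - cod (U ⊔ C) = Real.log ((q : ℝ) * N') := by
    unfold cod
    have e1 : Real.log (sz (U ⊔ C) : ℝ) + Real.log (sz D : ℝ) = Real.log (sz U : ℝ) + Real.log (sz C : ℝ) := by
      rw [← Real.log_mul hszUC.ne' hszD.ne', ← Real.log_mul hszU.ne' hszC.ne', h3]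
    have e2 : Real.log (sz C : ℝ) = Real.log ((q : ℝ) * N') + Real.log (sz D : ℝ) := by
      rw [h1', h2', ← mul_assoc, Real.log_mul (by positivity) hszD.ne']
    linarith
  -- wbar
  have hdiff : (0 : ℝ) < (sz C : ℝ) - sz C' := by
    have : (2 : ℝ) ≤ q := by exact_mod_cast hq2
    rw [h1']; nlinarith
  have hcls : cls R s = (univ.filter fun y => y ∈ C) \ (univ.filter fun y => y ∈ C') := by
    ext y
    rw [mem_cls_iff π hπ hR hs0]
    simp [hC, hC']
  have hsubs : (univ.filter fun y => y ∈ C') ⊆ (univ.filter fun y : V => y ∈ C) := by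
    intro y hy
    rw [Finset.mem_filter] at hy ⊢
    exact ⟨hy.1, hCC hy.2⟩
  have hcard : ((cls R s).card : ℝ) = (sz C : ℝ) - sz C' := by
    rw [hcls, Finset.card_sdiff_of_subset hsubs, Nat.cast_sub (Finset.card_le_card hsubs)]
    rfl
  have hsum : ∑ y ∈ cls R s, (outCount A y : ℝ) = A.card * ((sz C : ℝ) - sz C')
      - ∑ y ∈ A, ((cnt A C y : ℝ) - cnt A C' y) := by
    have e := Finset.sum_sdiff (f := fun y => (outCount A y : ℝ)) hsubs
    rw [sum_out, sum_out] at e
    rw [hcls]
    simp only [Finset.sum_sub_distrib, Finset.sum_const, nsmul_eq_mul] at e ⊢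
    linarith
  set P : ℝ := (∑ y ∈ A, ((cnt A C y : ℝ) - cnt A C' y)) / ((sz C : ℝ) - sz C') with hP
  have hw : wbar R A s = 1 - P / A.card := by
    unfold wbar
    rw [hcard, hsum, hP]
    field_simp
  rw [hΛ, hw]
  unfold L
  have e3 : (Real.log (Fintype.card V) - Real.log (sz U) - (Real.log A.card - G A U / A.card) -
      (Real.log (Fintype.card V) - Real.log (sz (U ⊔ C)) - (Real.log A.card - G A (U ⊔ C) / A.card)))
      = Real.log ((q : ℝ) * N') - (G A (U ⊔ C) - G A U) / A.card := by
    rw [← hΛ]; unfold cod; field_simp; ring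
  rw [e3]
  have e4 : Real.log ((q : ℝ) * N') * P ≤ G A (U ⊔ C) - G A U := by
    have : G A C - G A D ≤ G A (U ⊔ C) - G A U := by linarith
    linarith
  have e5 : Real.log ((q : ℝ) * N') * P / A.card ≤ (G A (U ⊔ C) - G A U) / A.card :=
    div_le_div_of_nonneg_right e4 hA0.le
  have e6 : (1 - P / A.card) * Real.log ((q : ℝ) * N')
      = Real.log ((q : ℝ) * N') - Real.log ((q : ℝ) * N') * P / A.card := by ring
  rw [e6]
  linarith

/-- The Lagrangian value of a submodule -/
def g (μ : V → ℝ) (lam : ℝ) (W : Submodule R V) : ℝ :=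
  (∑ s ∈ univ.filter (fun s => s ∉ W), μ s) - lam * cod W

include hπ hR in
lemma induct (μ : V → ℝ) (hμ : ∀ s, 0 ≤ μ s) (lam : ℝ) (hlam : 0 ≤ lam) (m : ℝ) (hm : m ≤ 0)
    (hg : ∀ W : Submodule R V, m ≤ g μ lam W) (A : Finset V) (hA : A.Nonempty) (U : Submodule R V) :
    ∀ t : ℝ, t ≤ 1 → (∀ s, s ∉ U → t ≤ wbar R A s) →
      (1 - t) * m + lam * (L A U - cod U * t) ≤
        ∑ s ∈ univ.filter (fun s => s ∉ U), μ s * (wbar R A s - t) := by
  induction U using WellFoundedGT.induction with
  | ind U ih =>
    intro t ht hw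
    by_cases hU : U = ⊤
    · subst hU
      have hszt : sz (⊤ : Submodule R V) = Fintype.card V := by unfold sz; simp
      have hL : L A (⊤ : Submodule R V) = 0 := by
        unfold L G
        rw [hszt]
        have hA0 : (0 : ℝ) < A.card := by exact_mod_cast hA.card_pos
        simp only [cnt_top, Finset.sum_const, nsmul_eq_mul]
        field_simp
        ring
      have hcod : cod (⊤ : Submodule R V) = 0 := by unfold cod; rw [hszt]; ring
      rw [hL, hcod]
      simp only [zero_mul, sub_self, mul_zero, add_zero, Submodule.mem_top, not_true_eq_false,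
        Finset.filter_false, Finset.sum_empty]
      exact mul_nonpos_of_nonneg_of_nonpos (by linarith) hm
    · have hne : (univ.filter (fun s => s ∉ U)).Nonempty := by
        by_contra hcon
        rw [Finset.not_nonempty_iff_eq_empty, Finset.filter_eq_empty_iff] at hcon
        apply hU
        rw [Submodule.eq_top_iff']; intro x; simpa using hcon (Finset.mem_univ x)
      obtain ⟨s, hs, hmin⟩ := Finset.exists_min_image _ (fun s => wbar R A s) hne
      have hsU : s ∉ U := by simpa using hs
      have hmin' : ∀ y, y ∉ U → wbar R A s ≤ wbar R A y := fun y hy => hmin y (by simpa using hy)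
      have hlt : U < U ⊔ Submodule.span R {s} := by
        refine lt_of_le_of_ne le_sup_left fun h => hsU ?_
        rw [h]
        exact Submodule.mem_sup_right (Submodule.mem_span_singleton_self s)
      have hIH := ih (U ⊔ Submodule.span R {s}) hlt (wbar R A s) (wbar_le_one A hA s)
        (fun y hy => hmin' y (fun h => hy (Submodule.mem_sup_left h)))
      have hst := L_step π hπ hR A hA U s hsU
      have hgU := hg U
      unfold g at hgU
      set t' := wbar R A s with ht'
      have htt' : t ≤ t' := hw s hsU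
      have hsplit : ∑ y ∈ univ.filter (fun y => y ∉ U), μ y * (wbar R A y - t)
          = ∑ y ∈ univ.filter (fun y => y ∉ U), μ y * (wbar R A y - t')
            + (t' - t) * ∑ y ∈ univ.filter (fun y => y ∉ U), μ y := by
        rw [Finset.mul_sum, ← Finset.sum_add_distrib]
        refine Finset.sum_congr rfl fun y _ => by ring
      have hmono : ∑ y ∈ univ.filter (fun y => y ∉ U ⊔ Submodule.span R {s}), μ y * (wbar R A y - t')
          ≤ ∑ y ∈ univ.filter (fun y => y ∉ U), μ y * (wbar R A y - t') := by
        refine Finset.sum_le_sum_of_subset_of_nonneg ?_ ?_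
        · intro y hy
          simp only [Finset.mem_filter, Finset.mem_univ, true_and] at hy ⊢
          exact fun h => hy (Submodule.mem_sup_left h)
        · intro y hy _
          simp only [Finset.mem_filter, Finset.mem_univ, true_and] at hy
          exact mul_nonneg (hμ y) (sub_nonneg.mpr (hmin' y hy))
      rw [hsplit]
      have h5 : (t' - t) * (m + lam * cod U) ≤
          (t' - t) * ∑ y ∈ univ.filter (fun y => y ∉ U), μ y := by
        apply mul_le_mul_of_nonneg_left _ (by linarith)
        linarith
      have h6 : lam * (L A U - L A (U ⊔ Submodule.span R {s})) ≤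
          lam * (t' * (cod U - cod (U ⊔ Submodule.span R {s}))) :=
        mul_le_mul_of_nonneg_left hst hlam
      nlinarith [hIH, h5, h6, hmono]

include hπ hR in
/-- **Main inequality.** -/
theorem main (μ : V → ℝ) (hμ : ∀ s, 0 ≤ μ s)
    (hinv : ∀ (u : R) (s : V), IsUnit u → μ (u • s) = μ s) (lam : ℝ) (hlam : 0 ≤ lam) :
    ∃ W : Submodule R V, ∀ A : Finset V, A.Nonempty →
      g μ lam W ≤ (∑ s, μ s * outCount A s) / A.card
        - lam * Real.log (Fintype.card V / A.card) := by
  obtain ⟨W, hW⟩ := Finite.exists_min (fun W : Submodule R V => g μ lam W)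
  refine ⟨W, fun A hA => ?_⟩
  have hA0 : (0 : ℝ) < A.card := by exact_mod_cast hA.card_pos
  have hV0 : (0 : ℝ) < Fintype.card V := by exact_mod_cast Fintype.card_pos
  have hinv' : ∀ s y : V, Submodule.span R {y} = Submodule.span R {s} → μ y = μ s := by
    intro s y h
    by_cases hs : s = 0
    · subst hs
      have : y = 0 := by
        rw [Submodule.span_zero_singleton] at h
        exact Submodule.span_singleton_eq_bot.1 h
      rw [this]
    · have h1 := (mem_cls_iff π hπ hR hs y).1 (mem_cls.2 h)
      obtain ⟨r, rfl⟩ := Submodule.mem_span_singleton.1 h1.1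
      rcases hR r with hr | ⟨r', rfl⟩
      · exact hinv r s hr
      · exfalso
        apply h1.2
        rw [mul_comm, mul_smul]
        exact Submodule.smul_mem _ _ (Submodule.mem_span_singleton_self _)
  have hszt : sz (⊤ : Submodule R V) = Fintype.card V := by unfold sz; simp
  have hm : g μ lam W ≤ 0 := by
    refine (hW ⊤).trans ?_
    unfold g cod
    rw [hszt]; simp
  have h := induct π hπ hR μ hμ lam hlam (g μ lam W) hm hW A hA (⊥ : Submodule R V) 0 zero_le_one
    (fun s _ => wbar_nonneg A s)
  have hszb : sz (⊥ : Submodule R V) = 1 := by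
    unfold sz
    have : (univ.filter fun z : V => z ∈ (⊥ : Submodule R V)) = {0} := by ext z; simp
    rw [this, Finset.card_singleton]
  have hL : L A (⊥ : Submodule R V) = Real.log (Fintype.card V / A.card) := by
    unfold L G
    have : ∀ x ∈ A, Real.log (cnt A (⊥ : Submodule R V) x) = 0 := by
      intro x hx; rw [cnt_bot A x hx]; simp
    rw [Finset.sum_congr rfl this, hszb, Real.log_div hV0.ne' hA0.ne']
    simp
  rw [hL] at h
  simp only [sub_zero, one_mul, mul_zero] at h
  have h2 : ∑ s ∈ univ.filter (fun s => s ∉ (⊥ : Submodule R V)), μ s * wbar R A s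
      ≤ ∑ s, μ s * wbar R A s :=
    Finset.sum_le_sum_of_subset_of_nonneg (Finset.filter_subset _ _)
      (fun s _ _ => mul_nonneg (hμ s) (wbar_nonneg A s))
  rw [sum_wbar μ hinv' A] at h2
  linarith

end chain

end

end Pool.Agent.U397.PG
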