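import Pool.Agent.U397.PG.Count

set_option autoImplicit false
set_option linter.unusedSectionVars false
set_option linter.unusedVariables false
set_option maxHeartbeats 1000000

namespace Pool.Agent.U397.PG

open Finset
open scoped Classical

noncomputable section

variable {R V : Type} [CommRing R] [AddCommGroup V] [Module R V] [Fintype V]

/-- the local inequality in one coset of `C` -/
lemma local_ineq (A : Finset V) {D C' C : Submodule R V} (hD : D ≤ C') (hC : C' ≤ C) (q N' : ℕ)
    (hq : 2 ≤ q) (hN : 1 ≤ N') (h1 : sz C = q * sz C') (h2 : sz C' = N' * sz D) (x : V)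
    (hx : x ∈ A) :
    (∑ y ∈ A, if y - x ∈ C then (Real.log ((q : ℝ) * N') / ((sz C : ℝ) - sz C')
      * ((cnt A C y : ℝ) - cnt A C' y) - (Real.log (cnt A C y) - Real.log (cnt A D y))) else 0)
      ≤ 0 := by
  rw [← Finset.sum_filter]
  set T := A.filter fun y => y - x ∈ C with hT
  have hTA : T ⊆ A := Finset.filter_subset _ _
  set a : ℝ := (cnt A C x : ℝ) with ha
  have ha0 : 0 < a := cnt_pos' A C x hx
  have hTc : (T.card : ℝ) = a := rfl
  have hay : ∀ y ∈ T, (cnt A C y : ℝ) = a := fun y hy => by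
    rw [ha, cnt_congr A C y x (Finset.mem_filter.1 hy).2]
  have hq0 : (0 : ℝ) < q := by positivity
  have hq2 : (2 : ℝ) ≤ q := by exact_mod_cast hq
  have hN1 : (1 : ℝ) ≤ N' := by exact_mod_cast hN
  have hszD : (0 : ℝ) < sz D := by exact_mod_cast sz_pos D
  have hszC : (0 : ℝ) < sz C := by exact_mod_cast sz_pos C
  have hszC' : (0 : ℝ) < sz C' := by exact_mod_cast sz_pos C'
  have h1' : (sz C : ℝ) = q * sz C' := by rw [h1]; push_cast; ring
  have h2' : (sz C' : ℝ) = N' * sz D := by rw [h2]; push_cast; ring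
  have hb0 : ∀ y ∈ T, (0 : ℝ) < cnt A C' y := fun y hy => cnt_pos' A C' y (hTA hy)
  have hd0 : ∀ y ∈ T, (0 : ℝ) < cnt A D y := fun y hy => cnt_pos' A D y (hTA hy)
  have hba : ∀ y ∈ T, (cnt A C' y : ℝ) ≤ a := fun y hy => by
    rw [← hay y hy]; exact_mod_cast cnt_mono A hC y
  have hdb : ∀ y ∈ T, (cnt A D y : ℝ) ≤ cnt A C' y := fun y hy => by
    exact_mod_cast cnt_mono A hD y
  set ρ : ℝ := a / sz C with hρ
  set h : ℝ := (∑ y ∈ T, (Real.log a - Real.log (cnt A C' y))) / a with hh
  set E : ℝ := (∑ y ∈ T, (Real.log a - Real.log (cnt A D y))) / a with hE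
  set σ : ℝ := (∑ y ∈ T, (cnt A C' y : ℝ) / a) / a with hσ
  have hρ0 : 0 < ρ := by positivity
  have hρ1 : ρ ≤ 1 := by
    rw [hρ, div_le_one hszC, ha]; exact_mod_cast cnt_le_sz A C x
  have hh0 : 0 ≤ h := by
    refine div_nonneg (Finset.sum_nonneg fun y hy => ?_) ha0.le
    have := Real.log_le_log (hb0 y hy) (hba y hy)
    linarith
  -- h ≤ log q
  have hhq : h ≤ Real.log q := by
    have e1 : ∑ y ∈ T, (1 / (cnt A C' y : ℝ)) ≤ q := by
      have := sum_inv_le_index A hC x
      rw [← Finset.sum_filter, ← hT, h1'] at this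
      have h3 : (∑ y ∈ T, 1 / (cnt A C' y : ℝ)) * sz C' ≤ q * sz C' := by linarith
      exact le_of_mul_le_mul_right h3 hszC'
    have e2 : ∀ y ∈ T, Real.log a - Real.log (cnt A C' y) ≤
        Real.log q + (a / q * (1 / (cnt A C' y : ℝ)) - 1) := by
      intro y hy
      have hb := hb0 y hy
      have := Real.log_le_sub_one_of_pos (show 0 < a / (q * (cnt A C' y : ℝ)) by positivity)
      rw [Real.log_div ha0.ne' (by positivity), Real.log_mul hq0.ne' hb.ne'] at this
      have e3 : a / (q * (cnt A C' y : ℝ)) = a / q * (1 / (cnt A C' y : ℝ)) := by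
        field_simp
      rw [e3] at this
      linarith
    rw [hh, div_le_iff₀ ha0]
    refine (Finset.sum_le_sum e2).trans ?_
    rw [Finset.sum_add_distrib, Finset.sum_sub_distrib, ← Finset.mul_sum, Finset.sum_const,
      Finset.sum_const, nsmul_eq_mul, nsmul_eq_mul, hTc]
    have : a / q * ∑ y ∈ T, (1 / (cnt A C' y : ℝ)) ≤ a / q * q :=
      mul_le_mul_of_nonneg_left e1 (by positivity)
    have e4 : a / (q : ℝ) * q = a := by field_simp
    rw [e4] at this
    linarith
  have hσ0 : 0 < σ := by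
    refine div_pos (Finset.sum_pos (fun y hy => div_pos (hb0 y hy) ha0) ⟨x, ?_⟩) ha0
    exact Finset.mem_filter.2 ⟨hx, by simp⟩
  have hσh : Real.exp (-h) ≤ σ := by
    rw [← Real.le_log_iff_exp_le hσ0]
    have e2 : ∀ y ∈ T, Real.log (cnt A C' y) - Real.log a ≤
        Real.log σ + (1 / σ * ((cnt A C' y : ℝ) / a) - 1) := by
      intro y hy
      have hb := hb0 y hy
      have h8 : 0 < (cnt A C' y : ℝ) / a := div_pos hb ha0
      have h9 := Real.log_le_sub_one_of_pos (div_pos h8 hσ0)
      rw [Real.log_div h8.ne' hσ0.ne', Real.log_div hb.ne' ha0.ne'] at h9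
      have e3 : (cnt A C' y : ℝ) / a / σ = 1 / σ * ((cnt A C' y : ℝ) / a) := by
        rw [one_div, mul_comm, div_eq_mul_inv]
      rw [e3] at h9
      linarith
    have e5 : -h * a ≤ Real.log σ * a := by
      have e6 : -h * a = ∑ y ∈ T, (Real.log (cnt A C' y) - Real.log a) := by
        rw [hh]
        have : -((∑ y ∈ T, (Real.log a - Real.log (cnt A C' y))) / a) * a
            = -(∑ y ∈ T, (Real.log a - Real.log (cnt A C' y))) := by field_simp
        rw [this, ← Finset.sum_neg_distrib]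
        refine Finset.sum_congr rfl fun y _ => by ring
      rw [e6]
      refine (Finset.sum_le_sum e2).trans ?_
      rw [Finset.sum_add_distrib, Finset.sum_sub_distrib, ← Finset.mul_sum, Finset.sum_const,
        Finset.sum_const, nsmul_eq_mul, nsmul_eq_mul, hTc]
      have e7 : ∑ y ∈ T, (cnt A C' y : ℝ) / a = σ * a := by rw [hσ]; field_simp
      rw [e7]
      have e8 : 1 / σ * (σ * a) = a := by field_simp
      rw [e8]
      linarith
    exact le_of_mul_le_mul_right e5 ha0
  have hσ1 : σ ≤ 1 := by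
    rw [hσ, div_le_one ha0]
    calc ∑ y ∈ T, (cnt A C' y : ℝ) / a ≤ ∑ y ∈ T, (1 : ℝ) :=
          Finset.sum_le_sum fun y hy => by rw [div_le_one ha0]; exact hba y hy
      _ = a := by rw [Finset.sum_const, nsmul_eq_mul, mul_one, hTc]
  have hhE : h ≤ E := by
    rw [hh, hE]
    refine div_le_div_of_nonneg_right (Finset.sum_le_sum fun y hy => ?_) ha0.le
    have := Real.log_le_log (hd0 y hy) (hdb y hy)
    linarith
  have hE2 : Real.log ((q : ℝ) * N') + Real.log ρ ≤ E := by
    rw [hE, le_div_iff₀ ha0]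
    have e1 : (Real.log ((q : ℝ) * N') + Real.log ρ) = Real.log a - Real.log (sz D) := by
      rw [hρ, Real.log_div ha0.ne' hszC.ne', h1', h2', Real.log_mul (by positivity) (by positivity),
        Real.log_mul (by positivity) (by positivity), Real.log_mul (by positivity) (by positivity)]
      ring
    rw [e1]
    calc (Real.log a - Real.log (sz D)) * a = ∑ y ∈ T, (Real.log a - Real.log (sz D)) := by
          rw [Finset.sum_const, nsmul_eq_mul, hTc]; ring
      _ ≤ _ := Finset.sum_le_sum fun y hy => by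
          have : Real.log (cnt A D y) ≤ Real.log (sz D) :=
            Real.log_le_log (hd0 y hy) (by exact_mod_cast cnt_le_sz A D y)
          linarith
  have key := real_lemma q N' hq hN ρ h σ E hρ0 hρ1 hh0 hhq hσh hσ1 hhE hE2
  -- conclusion
  have hT1 : ∑ y ∈ T, (Real.log ((q : ℝ) * N') / ((sz C : ℝ) - sz C')
      * ((cnt A C y : ℝ) - cnt A C' y) - (Real.log (cnt A C y) - Real.log (cnt A D y)))
      = a * (Real.log ((q : ℝ) * N') * ρ * ((1 - σ) * (q / (q - 1))) - E) := by
    have e1 : ∑ y ∈ T, (Real.log ((q : ℝ) * N') / ((sz C : ℝ) - sz C')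
      * ((cnt A C y : ℝ) - cnt A C' y) - (Real.log (cnt A C y) - Real.log (cnt A D y)))
      = ∑ y ∈ T, (Real.log ((q : ℝ) * N') / ((sz C : ℝ) - sz C')
      * (a - cnt A C' y) - (Real.log a - Real.log (cnt A D y))) :=
      Finset.sum_congr rfl fun y hy => by rw [hay y hy]
    rw [e1, Finset.sum_sub_distrib, ← Finset.mul_sum, Finset.sum_sub_distrib (f := fun _ => a),
      Finset.sum_const, nsmul_eq_mul, hTc]
    have e2 : ∑ y ∈ T, (cnt A C' y : ℝ) = σ * a * a := by
      rw [hσ]
      have : (∑ y ∈ T, (cnt A C' y : ℝ) / a) / a * a * a = (∑ y ∈ T, (cnt A C' y : ℝ) / a) * a := by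
        field_simp
      rw [this, Finset.sum_mul]
      refine Finset.sum_congr rfl fun y _ => by field_simp
    have e3 : ∑ y ∈ T, (Real.log a - Real.log (cnt A D y)) = a * E := by
      rw [hE]; field_simp
    rw [e2, e3, hρ, h1']
    have hq1 : (q : ℝ) - 1 ≠ 0 := by linarith
    have : (q : ℝ) * sz C' - sz C' ≠ 0 := by
      have : (q : ℝ) * sz C' - sz C' = (q - 1) * sz C' := by ring
      rw [this]; positivity
    field_simp
  rw [hT1]
  refine mul_nonpos_of_nonneg_of_nonpos ha0.le ?_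
  linarith

/-- The block inequality. -/
lemma block (A : Finset V) {D C' C : Submodule R V} (hD : D ≤ C') (hC : C' ≤ C) (q N' : ℕ)
    (hq : 2 ≤ q) (hN : 1 ≤ N') (h1 : sz C = q * sz C') (h2 : sz C' = N' * sz D) :
    Real.log ((q : ℝ) * N') * ((∑ y ∈ A, ((cnt A C y : ℝ) - cnt A C' y)) / ((sz C : ℝ) - sz C'))
      ≤ G A C - G A D := by
  have h3 := sum_avg A C (fun y => Real.log ((q : ℝ) * N') / ((sz C : ℝ) - sz C')
      * ((cnt A C y : ℝ) - cnt A C' y) - (Real.log (cnt A C y) - Real.log (cnt A D y)))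
  have h4 : ∑ x ∈ A, (∑ y ∈ A, if y - x ∈ C then (Real.log ((q : ℝ) * N') / ((sz C : ℝ) - sz C')
      * ((cnt A C y : ℝ) - cnt A C' y) - (Real.log (cnt A C y) - Real.log (cnt A D y))) else 0)
      / (cnt A C x : ℝ) ≤ 0 :=
    Finset.sum_nonpos fun x hx =>
      div_nonpos_of_nonpos_of_nonneg (local_ineq A hD hC q N' hq hN h1 h2 x hx) (Nat.cast_nonneg _)
  rw [h3, Finset.sum_sub_distrib, ← Finset.mul_sum, Finset.sum_sub_distrib
    (f := fun y => Real.log (cnt A C y : ℝ))] at h4
  unfold G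
  have : Real.log ((q : ℝ) * N') * ((∑ y ∈ A, ((cnt A C y : ℝ) - cnt A C' y)) / ((sz C : ℝ) - sz C'))
      = Real.log ((q : ℝ) * N') / ((sz C : ℝ) - sz C') * ∑ y ∈ A, ((cnt A C y : ℝ) - cnt A C' y) := by
    ring
  rw [this]
  linarith

end

end Pool.Agent.U397.PG
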