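import Pool.Agent.U397.PG.RealLemma

set_option autoImplicit false
set_option linter.unusedSectionVars false
set_option linter.unusedVariables false

/-! Counting points of a finite set in the cosets of submodules: the submodularity of the entropy and
the local inequality. -/

namespace Pool.Agent.U397.PG

open Finset
open scoped Classical

noncomputable section

variable {R V : Type} [CommRing R] [AddCommGroup V] [Module R V] [Fintype V]

/-- number of points of `A` in the coset `x + U` -/
def cnt (A : Finset V) (U : Submodule R V) (x : V) : ℕ := (A.filter fun z => z - x ∈ U).card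

/-- number of points of `A` that leave `A` under translation by `s` -/
def outCount (A : Finset V) (s : V) : ℕ := (A.filter fun x => x + s ∉ A).card

lemma cnt_pos (A : Finset V) (U : Submodule R V) (x : V) (hx : x ∈ A) : 1 ≤ cnt A U x := by
  unfold cnt
  rw [Nat.one_le_iff_ne_zero]
  intro h
  rw [Finset.card_eq_zero, Finset.filter_eq_empty_iff] at h
  exact h hx (by simp)

lemma cnt_pos' (A : Finset V) (U : Submodule R V) (x : V) (hx : x ∈ A) :
    (0 : ℝ) < cnt A U x := by exact_mod_cast cnt_pos A U x hx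

lemma cnt_top (A : Finset V) (x : V) : cnt A (⊤ : Submodule R V) x = A.card := by
  unfold cnt; simp

lemma cnt_bot (A : Finset V) (x : V) (hx : x ∈ A) : cnt A (⊥ : Submodule R V) x = 1 := by
  unfold cnt
  have : (A.filter fun z => z - x ∈ (⊥ : Submodule R V)) = {x} := by
    ext z
    simp only [Finset.mem_filter, Submodule.mem_bot, sub_eq_zero, Finset.mem_singleton]
    constructor
    · rintro ⟨_, h⟩; exact h
    · rintro rfl; exact ⟨hx, rfl⟩
  rw [this]; simp

lemma cnt_congr (A : Finset V) (U : Submodule R V) (x y : V) (h : x - y ∈ U) :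
    cnt A U x = cnt A U y := by
  unfold cnt
  congr 1
  ext z
  simp only [Finset.mem_filter]
  constructor
  · rintro ⟨h1, h2⟩
    refine ⟨h1, ?_⟩
    have : z - y = (z - x) + (x - y) := by abel
    rw [this]; exact U.add_mem h2 h
  · rintro ⟨h1, h2⟩
    refine ⟨h1, ?_⟩
    have : z - x = (z - y) - (x - y) := by abel
    rw [this]; exact U.sub_mem h2 h

lemma cnt_mono (A : Finset V) {U W : Submodule R V} (h : U ≤ W) (x : V) :
    cnt A U x ≤ cnt A W x := by
  unfold cnt
  exact Finset.card_le_card (Finset.monotone_filter_right A fun z _ hz => h hz)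

/-- the cardinality of a submodule -/
def sz (U : Submodule R V) : ℕ := (univ.filter fun z => z ∈ U).card

lemma sz_pos (U : Submodule R V) : 1 ≤ sz U := by
  unfold sz
  rw [Nat.one_le_iff_ne_zero]
  intro h
  rw [Finset.card_eq_zero, Finset.filter_eq_empty_iff] at h
  exact h (Finset.mem_univ 0) U.zero_mem

lemma cnt_le_sz (A : Finset V) (U : Submodule R V) (x : V) : cnt A U x ≤ sz U := by
  unfold cnt sz
  refine Finset.card_le_card_of_injOn (fun z => z - x) ?_ ?_
  · intro z hz
    have := (Finset.mem_filter.1 hz).2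
    simpa using this
  · intro a _ b _ h
    simpa using h

lemma cast_cnt (A : Finset V) (U : Submodule R V) (x : V) :
    (cnt A U x : ℝ) = ∑ z ∈ A, if z - x ∈ U then (1 : ℝ) else 0 := by
  unfold cnt
  rw [Finset.card_filter]; push_cast; rfl

/-- A set of points of `A` in one coset of `U`: the sum of `1 / cnt` is at most one. -/
lemma sum_inv_le_one (A : Finset V) (U : Submodule R V) (T : Finset V) (hT : T ⊆ A)
    (hT2 : ∀ x ∈ T, ∀ y ∈ T, x - y ∈ U) : ∑ x ∈ T, 1 / (cnt A U x : ℝ) ≤ 1 := by
  rcases T.eq_empty_or_nonempty with h | ⟨x0, hx0⟩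
  · subst h; simp
  · have h1 : ∀ x ∈ T, 1 / (cnt A U x : ℝ) = 1 / (cnt A U x0 : ℝ) := fun x hx => by
      rw [cnt_congr A U x x0 (hT2 x hx x0 hx0)]
    rw [Finset.sum_congr rfl h1, Finset.sum_const, nsmul_eq_mul, mul_one_div,
      div_le_one (cnt_pos' A U x0 (hT hx0))]
    have : T.card ≤ cnt A U x0 := by
      unfold cnt
      refine Finset.card_le_card fun x hx => Finset.mem_filter.2 ⟨hT hx, hT2 x hx x0 hx0⟩
    exact_mod_cast this

/-- double counting: averaging over the cosets of `C` -/
lemma sum_avg (A : Finset V) (C : Submodule R V) (f : V → ℝ) :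
    ∑ x ∈ A, (∑ y ∈ A, if y - x ∈ C then f y else 0) / (cnt A C x : ℝ) = ∑ y ∈ A, f y := by
  simp_rw [Finset.sum_div]
  rw [Finset.sum_comm]
  refine Finset.sum_congr rfl fun y hy => ?_
  have h1 : ∀ x ∈ A, (if y - x ∈ C then f y else 0) / (cnt A C x : ℝ)
      = (if x - y ∈ C then (1 : ℝ) else 0) * (f y / (cnt A C y : ℝ)) := by
    intro x hx
    have hiff : y - x ∈ C ↔ x - y ∈ C := by
      rw [← C.neg_mem_iff, neg_sub]
    by_cases h : y - x ∈ C
    · rw [if_pos h, if_pos (hiff.1 h), cnt_congr A C x y (hiff.1 h), one_mul]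
    · rw [if_neg h, if_neg (fun h' => h (hiff.2 h')), zero_div, zero_mul]
  rw [Finset.sum_congr rfl h1, ← Finset.sum_mul, ← cast_cnt]
  have := cnt_pos' A C y hy
  field_simp

/-- the submodularity of the entropy, multiplicative form -/
lemma submod_mul (A : Finset V) (C U : Submodule R V) :
    ∑ x ∈ A, ((cnt A C x : ℝ) * cnt A U x) / (cnt A (U ⊓ C) x * cnt A (U ⊔ C) x) ≤ A.card := by
  have h1 : ∀ x ∈ A, ((cnt A C x : ℝ) * cnt A U x) / (cnt A (U ⊓ C) x * cnt A (U ⊔ C) x)
      = ∑ y ∈ A, ∑ z ∈ A, if (y - x ∈ C ∧ z - x ∈ U) then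
          1 / ((cnt A (U ⊓ C) x : ℝ) * cnt A (U ⊔ C) x) else 0 := by
    intro x _
    rw [cast_cnt A C x, cast_cnt A U x, Finset.sum_mul_sum, Finset.sum_div]
    refine Finset.sum_congr rfl fun y _ => ?_
    rw [Finset.sum_div]
    refine Finset.sum_congr rfl fun z _ => ?_
    by_cases h1 : y - x ∈ C <;> by_cases h2 : z - x ∈ U <;> simp [h1, h2]
  rw [Finset.sum_congr rfl h1, Finset.sum_comm]
  have h2 : ∀ y ∈ A, (∑ x ∈ A, ∑ z ∈ A, if (y - x ∈ C ∧ z - x ∈ U) then
      1 / ((cnt A (U ⊓ C) x : ℝ) * cnt A (U ⊔ C) x) else 0) ≤ 1 := by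
    intro y hy
    rw [Finset.sum_comm]
    have h3 : ∀ z ∈ A, (∑ x ∈ A, if (y - x ∈ C ∧ z - x ∈ U) then
        1 / ((cnt A (U ⊓ C) x : ℝ) * cnt A (U ⊔ C) x) else 0)
        ≤ (if z - y ∈ U ⊔ C then (1 : ℝ) else 0) * (1 / (cnt A (U ⊔ C) y : ℝ)) := by
      intro z hz
      rw [← Finset.sum_filter]
      set T := A.filter fun x => y - x ∈ C ∧ z - x ∈ U with hT
      have h4 : ∀ x ∈ T, 1 / ((cnt A (U ⊓ C) x : ℝ) * cnt A (U ⊔ C) x)
          = 1 / (cnt A (U ⊓ C) x : ℝ) * (1 / (cnt A (U ⊔ C) y : ℝ)) := by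
        intro x hx
        have hx' := (Finset.mem_filter.1 hx).2
        rw [cnt_congr A (U ⊔ C) x y ?_]
        · rw [one_div_mul_one_div]
        · have : x - y = -(y - x) := by abel
          rw [this]
          exact (U ⊔ C).neg_mem (Submodule.mem_sup_right hx'.1)
      rw [Finset.sum_congr rfl h4, ← Finset.sum_mul]
      refine mul_le_mul_of_nonneg_right ?_ (by positivity)
      by_cases hzy : z - y ∈ U ⊔ C
      · rw [if_pos hzy]
        refine sum_inv_le_one A (U ⊓ C) T (Finset.filter_subset _ _) fun a ha b hb => ?_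
        have ha' := (Finset.mem_filter.1 ha).2
        have hb' := (Finset.mem_filter.1 hb).2
        refine Submodule.mem_inf.2 ⟨?_, ?_⟩
        · have : a - b = (z - b) - (z - a) := by abel
          rw [this]; exact U.sub_mem hb'.2 ha'.2
        · have : a - b = (y - b) - (y - a) := by abel
          rw [this]; exact C.sub_mem hb'.1 ha'.1
      · rw [if_neg hzy]
        have : T = ∅ := by
          rw [Finset.eq_empty_iff_forall_notMem]
          intro x hx
          have hx' := (Finset.mem_filter.1 hx).2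
          apply hzy
          have : z - y = (z - x) - (y - x) := by abel
          rw [this]
          exact (U ⊔ C).sub_mem (Submodule.mem_sup_left hx'.2) (Submodule.mem_sup_right hx'.1)
        rw [this]; simp
    refine (Finset.sum_le_sum h3).trans ?_
    rw [← Finset.sum_mul, ← cast_cnt]
    have := cnt_pos' A (U ⊔ C) y hy
    rw [mul_one_div, div_self this.ne']
  refine (Finset.sum_le_sum h2).trans ?_
  rw [Finset.sum_const, nsmul_eq_mul, mul_one]

/-- `|A|` times the conditional entropy of a random point of `A`, given its coset of `U` -/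
def G (A : Finset V) (U : Submodule R V) : ℝ := ∑ x ∈ A, Real.log (cnt A U x)

lemma submod (A : Finset V) (C U : Submodule R V) :
    G A C + G A U ≤ G A (U ⊓ C) + G A (U ⊔ C) := by
  have h : ∑ x ∈ A, (Real.log (cnt A C x) + Real.log (cnt A U x) - Real.log (cnt A (U ⊓ C) x)
      - Real.log (cnt A (U ⊔ C) x)) ≤ 0 := by
    have h1 : ∀ x ∈ A, (Real.log (cnt A C x) + Real.log (cnt A U x) - Real.log (cnt A (U ⊓ C) x)
        - Real.log (cnt A (U ⊔ C) x)) ≤
        ((cnt A C x : ℝ) * cnt A U x) / (cnt A (U ⊓ C) x * cnt A (U ⊔ C) x) - 1 := by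
      intro x hx
      have a1 := cnt_pos' A C x hx
      have a2 := cnt_pos' A U x hx
      have a3 := cnt_pos' A (U ⊓ C) x hx
      have a4 := cnt_pos' A (U ⊔ C) x hx
      have := Real.log_le_sub_one_of_pos
        (show 0 < ((cnt A C x : ℝ) * cnt A U x) / (cnt A (U ⊓ C) x * cnt A (U ⊔ C) x) by positivity)
      rw [Real.log_div (by positivity) (by positivity), Real.log_mul a1.ne' a2.ne',
        Real.log_mul a3.ne' a4.ne'] at this
      linarith
    refine (Finset.sum_le_sum h1).trans ?_
    rw [Finset.sum_sub_distrib]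
    have := submod_mul A C U
    simp only [Finset.sum_const, nsmul_eq_mul, mul_one]
    linarith
  unfold G
  simp only [Finset.sum_sub_distrib, Finset.sum_add_distrib] at h
  linarith

/-- `∑ 1 / cnt` over the points of `A` in one coset of `C` is at most the index of `C'` in `C`. -/
lemma sum_inv_le_index (A : Finset V) {C C' : Submodule R V} (hC : C' ≤ C) (x : V) :
    (sz C' : ℝ) * ∑ y ∈ A, (if y - x ∈ C then 1 / (cnt A C' y : ℝ) else 0) ≤ sz C := by
  have h1 : ∀ y ∈ A, (sz C' : ℝ) * (if y - x ∈ C then 1 / (cnt A C' y : ℝ) else 0)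
      = ∑ z : V, if (y - x ∈ C ∧ z - y ∈ C') then 1 / (cnt A C' y : ℝ) else 0 := by
    intro y _
    by_cases h : y - x ∈ C
    · simp only [h, true_and, if_true]
      have h2 : (sz C' : ℝ) = ∑ z : V, if z - y ∈ C' then (1 : ℝ) else 0 := by
        unfold sz
        rw [Finset.card_filter]
        push_cast
        exact (Fintype.sum_equiv (Equiv.subRight y) _ _ (fun z => rfl)).symm
      rw [h2, Finset.sum_mul]
      refine Finset.sum_congr rfl fun z _ => ?_
      by_cases h3 : z - y ∈ C' <;> simp [h3]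
    · simp [h]
  rw [Finset.mul_sum, Finset.sum_congr rfl h1, Finset.sum_comm]
  have h2 : ∀ z ∈ (univ : Finset V), (∑ y ∈ A, if (y - x ∈ C ∧ z - y ∈ C') then
      1 / (cnt A C' y : ℝ) else 0) ≤ if z - x ∈ C then (1 : ℝ) else 0 := by
    intro z _
    rw [← Finset.sum_filter]
    by_cases hz : z - x ∈ C
    · rw [if_pos hz]
      refine sum_inv_le_one A C' _ (Finset.filter_subset _ _) fun a ha b hb => ?_
      have ha' := (Finset.mem_filter.1 ha).2
      have hb' := (Finset.mem_filter.1 hb).2
      have : a - b = (z - b) - (z - a) := by abel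
      rw [this]; exact C'.sub_mem hb'.2 ha'.2
    · rw [if_neg hz, Finset.sum_eq_zero]
      intro y hy
      exfalso
      have hy' := (Finset.mem_filter.1 hy).2
      apply hz
      have : z - x = (z - y) + (y - x) := by abel
      rw [this]; exact C.add_mem (hC hy'.2) hy'.1
  refine (Finset.sum_le_sum h2).trans ?_
  have h3 : (sz C : ℝ) = ∑ z : V, if z - x ∈ C then (1 : ℝ) else 0 := by
    unfold sz
    rw [Finset.card_filter]
    push_cast
    exact (Fintype.sum_equiv (Equiv.subRight x) _ _ (fun z => rfl)).symm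
  rw [h3]

end

end Pool.Agent.U397.PG
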