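import Mathlib

set_option autoImplicit false

namespace Pool.Agent.U397.PG

/-- `1 + log_q N' ≤ N'`, multiplied by `q log q`. -/
theorem log_bound (q N' : ℕ) (hq : 2 ≤ q) (hN : 1 ≤ N') :
    (q : ℝ) * Real.log ((q : ℝ) * N') ≤ ((q : ℝ) * N') * Real.log q := by
  have hq0 : (0 : ℝ) < q := by positivity
  have hN0 : (0 : ℝ) < N' := by exact_mod_cast hN
  have hlq : Real.log 2 ≤ Real.log q := Real.log_le_log (by norm_num) (by exact_mod_cast hq)
  have hl2 : 0 < Real.log 2 := Real.log_pos (by norm_num)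
  have h1 : (N' : ℝ) ≤ 2 ^ (N' - 1) := by
    have : N' ≤ 2 ^ (N' - 1) := by
      have := Nat.lt_two_pow_self (n := N' - 1)
      omega
    exact_mod_cast this
  have h2 : Real.log N' ≤ (N' - 1 : ℝ) * Real.log 2 := by
    have := Real.log_le_log hN0 h1
    rw [Real.log_pow] at this
    rw [Nat.cast_sub hN] at this
    simpa using this
  have h3 : (N' - 1 : ℝ) * Real.log 2 ≤ (N' - 1 : ℝ) * Real.log q := by
    apply mul_le_mul_of_nonneg_left hlq
    have : (1 : ℝ) ≤ N' := by exact_mod_cast hN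
    linarith
  rw [Real.log_mul hq0.ne' hN0.ne']
  nlinarith

/-- The inequality for one coset: `N = q N'` is the number of the cosets of `D` in it, `ρ` the density
of the set in it, `h` the entropy of the distribution among the `q` cosets of `C'`, `σ` its collision
probability, `E` the entropy of the distribution among the cosets of `D`. -/
theorem real_lemma (q N' : ℕ) (hq : 2 ≤ q) (hN : 1 ≤ N') (ρ h σ E : ℝ) (hρ0 : 0 < ρ) (hρ1 : ρ ≤ 1)
    (h0 : 0 ≤ h) (hh : h ≤ Real.log q) (hσ : Real.exp (-h) ≤ σ) (hσ1 : σ ≤ 1) (hE1 : h ≤ E)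
    (hE2 : Real.log ((q : ℝ) * N') + Real.log ρ ≤ E) :
    Real.log ((q : ℝ) * N') * ρ * ((1 - σ) * (q / (q - 1))) ≤ E := by
  have hq0 : (0 : ℝ) < q := by positivity
  have hq2 : (2 : ℝ) ≤ q := by exact_mod_cast hq
  have hq1 : (0 : ℝ) < q - 1 := by linarith
  have hN1 : (1 : ℝ) ≤ N' := by exact_mod_cast hN
  have hlq : 0 < Real.log q := Real.log_pos (by linarith)
  have hqN : (2 : ℝ) ≤ q * N' := by nlinarith
  set Λ : ℝ := Real.log ((q : ℝ) * N') with hΛ
  have hΛ0 : 0 < Λ := Real.log_pos (by linarith)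
  set S : ℝ := (1 - σ) * (q / (q - 1)) with hS
  rcases le_or_gt S 0 with hS0 | hS0
  · have : Λ * ρ * S ≤ 0 := mul_nonpos_of_nonneg_of_nonpos (by positivity) hS0
    linarith
  -- convexity of exp
  have hA : Real.exp h ≤ 1 + h * (q - 1) / Real.log q := by
    have ht0 : 0 ≤ h / Real.log q := by positivity
    have ht1 : h / Real.log q ≤ 1 := by rw [div_le_one hlq]; exact hh
    have hc := convexOn_exp.2 (Set.mem_univ (0 : ℝ)) (Set.mem_univ (Real.log q))
      (show (0 : ℝ) ≤ 1 - h / Real.log q by linarith) ht0 (by ring)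
    simp only [smul_eq_mul, mul_zero, zero_add, Real.exp_zero, mul_one, Real.exp_log hq0] at hc
    have e1 : h / Real.log q * Real.log q = h := by field_simp
    rw [e1] at hc
    have e2 : 1 - h / Real.log q + h / Real.log q * q = 1 + h * (q - 1) / Real.log q := by
      field_simp; ring
    rw [e2] at hc
    exact hc
  have hB : 1 ≤ σ * Real.exp h := by
    have := mul_le_mul_of_nonneg_right hσ (Real.exp_pos h).le
    rw [← Real.exp_add, neg_add_cancel, Real.exp_zero] at this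
    exact this
  have hC : S * Real.exp h ≤ q * h / Real.log q := by
    have h1 : (1 - σ) * Real.exp h ≤ h * (q - 1) / Real.log q := by nlinarith
    have h2 := mul_le_mul_of_nonneg_right h1 (show 0 ≤ (q : ℝ) / (q - 1) by positivity)
    calc S * Real.exp h = (1 - σ) * Real.exp h * (q / (q - 1)) := by rw [hS]; ring
      _ ≤ h * (q - 1) / Real.log q * (q / (q - 1)) := h2
      _ = q * h / Real.log q := by field_simp
  have hh0 : 0 < h := by
    rcases h0.eq_or_lt with h1 | h1
    · exfalso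
      rw [← h1] at hC
      simp at hC
      linarith
    · exact h1
  have hS1 : S ≤ 1 := by
    have h1 : 1 / (q : ℝ) ≤ σ := by
      refine le_trans ?_ hσ
      have e0 : 1 / (q : ℝ) = Real.exp (-Real.log q) := by
        rw [Real.exp_neg, Real.exp_log hq0, one_div]
      rw [e0]
      exact Real.exp_le_exp.2 (by linarith)
    rw [hS, ← mul_div_assoc, div_le_one hq1]
    rw [div_le_iff₀ hq0] at h1
    nlinarith
  by_contra hcon
  push Not at hcon
  have h1 : h < Λ * ρ * S := by linarith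
  have hΛS : 0 < Λ * S := by positivity
  set ρc : ℝ := h / (Λ * S) with hρc
  have hρc0 : 0 < ρc := by positivity
  have hρcρ : ρc < ρ := by rw [hρc, div_lt_iff₀ hΛS]; linarith
  have hρc1 : ρc < 1 := by linarith
  have hlb := log_bound q N' hq hN
  have hlog : h - Λ ≤ Real.log ρc := by
    rw [Real.le_log_iff_exp_le hρc0, Real.exp_sub, hΛ, Real.exp_log (by linarith), hρc,
      div_le_div_iff₀ (by linarith) hΛS]
    have h2 : Λ * (S * Real.exp h) ≤ Λ * (q * h / Real.log q) :=
      mul_le_mul_of_nonneg_left hC hΛ0.le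
    have h3 : Λ * (q * h / Real.log q) ≤ h * (q * N') := by
      rw [← mul_div_assoc, div_le_iff₀ hlq]
      nlinarith
    linarith
  have hcv := (strictConcaveOn_log_Ioi.concaveOn).2 (Set.mem_Ioi.2 hρc0) (Set.mem_Ioi.2 one_pos)
    (show (0 : ℝ) ≤ (1 - ρ) / (1 - ρc) from div_nonneg (by linarith) (by linarith))
    (show (0 : ℝ) ≤ (ρ - ρc) / (1 - ρc) from div_nonneg (by linarith) (by linarith))
    (by rw [← add_div, div_eq_one_iff_eq (by linarith)]; ring)
  simp only [smul_eq_mul, Real.log_one, mul_zero, add_zero, mul_one] at hcv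
  have e1 : (1 - ρ) / (1 - ρc) * ρc + (ρ - ρc) / (1 - ρc) = ρ := by
    have : 1 - ρc ≠ 0 := by linarith
    field_simp; ring
  rw [e1] at hcv
  have hk0 : 0 ≤ (1 - ρ) / (1 - ρc) := div_nonneg (by linarith) (by linarith)
  have hk1 : 0 ≤ (ρ - ρc) / (1 - ρc) := div_nonneg (by linarith) (by linarith)
  have h4 : (1 - ρ) / (1 - ρc) * (h - Λ) ≤ Real.log ρ :=
    (mul_le_mul_of_nonneg_left hlog hk0).trans hcv
  have hkk : (1 - ρ) / (1 - ρc) + (ρ - ρc) / (1 - ρc) = 1 := by
    rw [← add_div, div_eq_one_iff_eq (by linarith)]; ring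
  have h5 : (ρ - ρc) / (1 - ρc) * Λ + (1 - ρ) / (1 - ρc) * h ≤ E := by
    have : (ρ - ρc) / (1 - ρc) * Λ + (1 - ρ) / (1 - ρc) * h
        = Λ * ((1 - ρ) / (1 - ρc) + (ρ - ρc) / (1 - ρc)) + (1 - ρ) / (1 - ρc) * (h - Λ) := by ring
    rw [this, hkk]
    linarith
  have h6 : h = Λ * S * ρc := by rw [hρc]; field_simp
  have h7 : Λ * ρ * S = (ρ - ρc) / (1 - ρc) * (Λ * S) + (1 - ρ) / (1 - ρc) * (Λ * S * ρc) := by
    have : (ρ - ρc) / (1 - ρc) * (Λ * S) + (1 - ρ) / (1 - ρc) * (Λ * S * ρc)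
        = Λ * S * ((1 - ρ) / (1 - ρc) * ρc + (ρ - ρc) / (1 - ρc)) := by ring
    rw [this, e1]; ring
  have h8 : (ρ - ρc) / (1 - ρc) * (Λ * S) ≤ (ρ - ρc) / (1 - ρc) * Λ := by
    apply mul_le_mul_of_nonneg_left _ hk1
    nlinarith
  rw [← h6] at h7
  linarith

end Pool.Agent.U397.PG
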